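import Pool.Agent.Y481.X.Defs

/-!
# The full kernel with the parameter `χ` in the upper half plane (KSX, project X of helper481)
-/

set_option autoImplicit false

namespace Pool.Agent.Y497.X

open Finset Filter Topology Metric
open Pool.Agent
open Pool.Agent.W711.HT
open Pool.Agent.Y472 (SD3 kh kF Gap Tg Ph)
open Pool.Agent.Y481 (bet_pos c1_pos)
open Pool.Agent.Y481.X
open Pool.Agent.W85.HT (Kc Kc_mem Kc_compact open_Rc)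
open Pool.Agent.W469.HT (mem_small)
open scoped Real

theorem inv_ev (t : ℝ) (ht : 0 < t) : ∀ᶠ N : ℕ in atTop, 1 / (N : ℝ) ≤ t :=
  tendsto_one_div_atTop_nhds_zero_nat.eventually_le_const ht

theorem two_ev {δ : ℝ} (hδ : 0 < δ) : ∀ᶠ N : ℕ in atTop, 2 ≤ Real.exp (N * δ) := by
  obtain ⟨N0, hN0⟩ := exists_nat_gt (1 / δ)
  filter_upwards [eventually_ge_atTop N0] with N hN
  have h1 : (1 : ℝ) ≤ N * δ := by
    have h2 : (N0 : ℝ) ≤ N := by exact_mod_cast hN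
    rw [div_lt_iff₀ hδ] at hN0
    nlinarith
  have h3 := Real.add_one_le_exp (N * δ)
  linarith

theorem re2 {ρ τ : ℝ} : ∀ ψ' ∈ Rc (3 * ρ) (3 * τ), ψ'.re ^ 2 ≤ 9 * ρ ^ 2 := by
  intro ψ' hψ'
  have h1 : |ψ'.re| ≤ 3 * ρ := hψ'.1.le
  have h0 : 0 ≤ |ψ'.re| := abs_nonneg _
  calc ψ'.re ^ 2 = |ψ'.re| ^ 2 := (sq_abs _).symm
    _ ≤ (3 * ρ) ^ 2 := by gcongr
    _ = 9 * ρ ^ 2 := by ring

/-- the constants in terms of `u = ρ ^ 2 / (128 π)` -/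
theorem consts {ρ : ℝ} (hρ : 0 < ρ) : ∃ u : ℝ, 0 < u ∧ 20 / (128 * π) * ρ ^ 2 = 20 * u ∧
    3 * (ρ ^ 2 / (1000 * π)) ≤ u ∧ c1 * ρ ^ 2 = 31 * u ∧ 9 * ρ ^ 2 / (4 * π) = 288 * u ∧
    1 / (128 * π) * ρ ^ 2 = u ∧ 289 * u ≤ ρ ^ 2 ∧
    (∀ x : ℝ, x ≤ 9 * ρ ^ 2 → x / (4 * π) - c1 * x ≤ 9 * u) := by
  have hπ := Real.pi_pos
  have hπ3 := Real.pi_gt_three
  refine ⟨ρ ^ 2 / (128 * π), by positivity, by ring, ?_, by rw [c1]; ring, by ring, by ring, ?_, ?_⟩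
  · rw [mul_div_assoc', div_le_div_iff₀ (by positivity) (by positivity)]
    have : 0 ≤ ρ ^ 2 * π := by positivity
    nlinarith
  · rw [mul_div_assoc', div_le_iff₀ (by positivity)]
    have : 0 ≤ ρ ^ 2 := by positivity
    nlinarith
  · intro x hx
    have e1 : x / (4 * π) - c1 * x = x / (128 * π) := by
      rw [c1]
      field_simp
      ring
    rw [e1, mul_div_assoc']
    gcongr

theorem norm_le_Rc {a b : ℝ} {w : ℂ} (h : w ∈ Rc a b) : ‖w‖ ≤ a + b :=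
  (Complex.norm_le_abs_re_add_abs_im w).trans (add_le_add h.1.le h.2.le)

/-- lower bound of the potential -/
theorem s_low {ρ₀ c C : ℝ} {s dl : ℂ → ℂ → ℂ → ℂ} (S : SD3 ρ₀ c C s dl) {ρ τ R : ℝ} (hρ : 0 < ρ)
    (hτρ : τ ≤ ρ) (hρρ₀ : 3 * ρ ≤ ρ₀) (hR0 : 0 < R) (hR : 50 * R ≤ ρ)
    (hρC : 30000 * C * ρ ^ 2 ≤ 1 / (256 * π)) :
    ∀ ψ ∈ Rc (3 * ρ) (3 * τ), ∀ ψ' ∈ Rc (3 * ρ) (3 * τ), ∀ χ ∈ Rc R R,
      2 * bet - ψ.re ^ 2 / (4 * π) - ψ'.re ^ 2 / (4 * π) - 1 / (128 * π) * ρ ^ 2 ≤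
        (s ψ ψ' χ).re := by
  have hC := S.hC
  have hπ := Real.pi_pos
  have hsub : Rc (3 * ρ) (3 * τ) ⊆ Rc ρ₀ ρ₀ := mem_small hρρ₀ (by linarith)
  have hsubR : Rc R R ⊆ Rc ρ₀ ρ₀ := mem_small (by linarith) (by linarith)
  intro ψ hψ ψ' hψ' χ hχ
  have h1 := S.low ψ (hsub hψ) ψ' (hsub hψ') χ (hsubR hχ)
  have n1 := norm_le_Rc hψ
  have n2 := norm_le_Rc hψ'
  have n3 := norm_le_Rc hχ
  have h2 : ‖ψ‖ + ‖ψ'‖ + ‖χ‖ ≤ 13 * ρ := by linarith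
  have h3 : C * (‖ψ‖ + ‖ψ'‖ + ‖χ‖) ^ 4 ≤ 1 / (256 * π) * ρ ^ 2 := by
    calc C * (‖ψ‖ + ‖ψ'‖ + ‖χ‖) ^ 4 ≤ C * (13 * ρ) ^ 4 := by gcongr
      _ = 28561 * C * ρ ^ 4 := by ring
      _ ≤ 30000 * C * ρ ^ 4 := by gcongr; norm_num
      _ = (30000 * C * ρ ^ 2) * ρ ^ 2 := by ring
      _ ≤ 1 / (256 * π) * ρ ^ 2 := by gcongr
  have h4 := (Complex.abs_re_le_norm _).trans (h1.trans h3)
  have h5 : (s ψ ψ' χ - (2 * bet - (ψ ^ 2 + ψ' ^ 2 + χ ^ 2) / (4 * π))).re =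
      (s ψ ψ' χ).re - (2 * bet - ((ψ.re ^ 2 - ψ.im ^ 2) + (ψ'.re ^ 2 - ψ'.im ^ 2) +
        (χ.re ^ 2 - χ.im ^ 2)) / (4 * π)) := by
    have e1 : (ψ ^ 2 + ψ' ^ 2 + χ ^ 2) / (4 * π) =
        (((4 * π)⁻¹ : ℝ) : ℂ) * (ψ ^ 2 + ψ' ^ 2 + χ ^ 2) := by
      push_cast
      rw [div_eq_inv_mul]
    rw [e1]
    simp only [Complex.sub_re, Complex.re_ofReal_mul, Complex.add_re]
    have e2 : ∀ w : ℂ, (w ^ 2).re = w.re ^ 2 - w.im ^ 2 := by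
      intro w
      rw [pow_two, Complex.mul_re]
      ring
    have e3 : (2 * (bet : ℂ)).re = 2 * bet := by simp
    rw [e2, e2, e2, e3]
    ring
  rw [h5] at h4
  have h6 := (abs_le.1 h4).1
  have h7 : 0 ≤ ψ'.im ^ 2 / (4 * π) := by positivity
  have h7' : 0 ≤ ψ.im ^ 2 / (4 * π) := by positivity
  have h7'' : 0 ≤ χ.im ^ 2 / (4 * π) := by positivity
  have h8 : ((ψ.re ^ 2 - ψ.im ^ 2) + (ψ'.re ^ 2 - ψ'.im ^ 2) +
        (χ.re ^ 2 - χ.im ^ 2)) / (4 * π) = ψ.re ^ 2 / (4 * π) - ψ.im ^ 2 / (4 * π) +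
        (ψ'.re ^ 2 / (4 * π) - ψ'.im ^ 2 / (4 * π)) + (χ.re ^ 2 / (4 * π) - χ.im ^ 2 / (4 * π)) := by
    ring
  have h9 : χ.re ^ 2 ≤ ρ ^ 2 / 2500 := by
    have h10 : |χ.re| ≤ ρ / 50 := by
      have := hχ.1
      linarith
    have h11 : 0 ≤ |χ.re| := abs_nonneg _
    calc χ.re ^ 2 = |χ.re| ^ 2 := (sq_abs _).symm
      _ ≤ (ρ / 50) ^ 2 := by gcongr
      _ = ρ ^ 2 / 2500 := by ring
  have h12 : χ.re ^ 2 / (4 * π) ≤ 1 / (256 * π) * ρ ^ 2 := by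
    have h13 : 1 / (256 * π) * ρ ^ 2 = (ρ ^ 2 / 64) / (4 * π) := by
      field_simp
      ring
    rw [h13]
    have h14 : (0 : ℝ) ≤ ρ ^ 2 := sq_nonneg _
    gcongr
    linarith
  have h15 : 1 / (128 * π) * ρ ^ 2 = 1 / (256 * π) * ρ ^ 2 + 1 / (256 * π) * ρ ^ 2 := by
    field_simp
    ring
  linarith

/-- the value at the origin -/
theorem s_zero {ρ₀ c C : ℝ} {s dl : ℂ → ℂ → ℂ → ℂ} (S : SD3 ρ₀ c C s dl) {ρ R : ℝ} (hρ : 0 < ρ)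
    (hρρ₀ : 3 * ρ ≤ ρ₀) (hR0 : 0 < R) (hR : 50 * R ≤ ρ)
    (hρC : 30000 * C * ρ ^ 2 ≤ 1 / (256 * π)) :
    ∀ χ ∈ Rc R R, |(s 0 0 χ).re - 2 * bet| ≤ 20 / (128 * π) * ρ ^ 2 / 64 := by
  have hC := S.hC
  have hπ := Real.pi_pos
  have hsubR : Rc R R ⊆ Rc ρ₀ ρ₀ := mem_small (by linarith) (by linarith)
  intro χ hχ
  have h0 : (0 : ℂ) ∈ Rc ρ₀ ρ₀ := by
    refine ⟨?_, ?_⟩ <;> simp <;> linarith
  have h1 := S.low 0 h0 0 h0 χ (hsubR hχ)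
  have n3 := norm_le_Rc hχ
  have n4 : ‖χ‖ ≤ ρ / 25 := by linarith
  have n5 := norm_nonneg χ
  rw [norm_zero, zero_add, zero_add] at h1
  have h2 : ‖s 0 0 χ - 2 * bet‖ ≤ ‖χ‖ ^ 2 / (4 * π) + C * ‖χ‖ ^ 4 := by
    have e1 : s 0 0 χ - 2 * bet = (s 0 0 χ - (2 * bet - ((0 : ℂ) ^ 2 + 0 ^ 2 + χ ^ 2) / (4 * π))) -
        χ ^ 2 / (4 * π) := by
      ring
    have e2 : ‖χ ^ 2 / (4 * (π : ℂ))‖ = ‖χ‖ ^ 2 / (4 * π) := by
      rw [norm_div, norm_pow, norm_mul, Complex.norm_real, Real.norm_eq_abs, abs_of_pos hπ]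
      simp
    rw [e1]
    refine (norm_sub_le _ _).trans ?_
    rw [e2]
    linarith
  have h3 : |(s 0 0 χ).re - 2 * bet| ≤ ‖s 0 0 χ - 2 * bet‖ := by
    have h4 := Complex.abs_re_le_norm (s 0 0 χ - 2 * bet)
    have e3 : (2 * (bet : ℂ)).re = 2 * bet := by simp
    rwa [Complex.sub_re, e3] at h4
  have h5 : ‖χ‖ ^ 2 ≤ ρ ^ 2 / 625 := by
    calc ‖χ‖ ^ 2 ≤ (ρ / 25) ^ 2 := by gcongr
      _ = ρ ^ 2 / 625 := by ring
  have h6 : C * ‖χ‖ ^ 4 ≤ 1 / (256 * π) * ρ ^ 2 / 30000 := by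
    calc C * ‖χ‖ ^ 4 ≤ C * (ρ / 25) ^ 4 := by gcongr
      _ ≤ C * ρ ^ 4 := by
        gcongr
        linarith
      _ = (30000 * C * ρ ^ 2) * ρ ^ 2 / 30000 := by ring
      _ ≤ 1 / (256 * π) * ρ ^ 2 / 30000 := by gcongr
  have h7 : ‖χ‖ ^ 2 / (4 * π) ≤ ρ ^ 2 / 625 / (4 * π) := by gcongr
  have h8 : ρ ^ 2 / 625 / (4 * π) + 1 / (256 * π) * ρ ^ 2 / 30000 ≤
      20 / (128 * π) * ρ ^ 2 / 64 := by
    have h9 : 0 ≤ ρ ^ 2 / π := by positivity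
    have e1 : ρ ^ 2 / 625 / (4 * π) + 1 / (256 * π) * ρ ^ 2 / 30000 =
      (1 / 2500 + 1 / 7680000) * (ρ ^ 2 / π) := by
      field_simp
      ring
    have e2 : 20 / (128 * π) * ρ ^ 2 / 64 = (20 / 8192) * (ρ ^ 2 / π) := by
      field_simp
      ring
    rw [e1, e2]
    nlinarith
  linarith

/-- uniform continuity in the parameter -/
theorem s_unif {ρ₀ c C : ℝ} {s dl : ℂ → ℂ → ℂ → ℂ} (S : SD3 ρ₀ c C s dl) {a R : ℝ} (ha : a < ρ₀)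
    (hR : R < ρ₀) {χ₀ : ℂ} (hχ₀ : χ₀ ∈ Rc R R) {χs : ℕ → ℂ} (hχs : Tendsto χs atTop (𝓝 χ₀))
    {ε : ℝ} (hε : 0 < ε) : ∀ᶠ N : ℕ in atTop, ∀ ψ ∈ Kc a a, ∀ ψ' ∈ Kc a a,
      |(s ψ ψ' (χs N)).re - (s ψ ψ' χ₀).re| ≤ ε := by
  have hsub : ∀ b : ℝ, b < ρ₀ → Kc b b ⊆ Rc ρ₀ ρ₀ := by
    intro b hb w hw
    rw [Kc_mem] at hw
    exact ⟨by linarith [hw.1], by linarith [hw.2]⟩
  have hK : IsCompact (Kc a a ×ˢ (Kc a a ×ˢ Kc R R) : Set (ℂ × ℂ × ℂ)) :=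
    (Kc_compact a a).prod ((Kc_compact a a).prod (Kc_compact R R))
  have hc : ContinuousOn (fun p : ℂ × ℂ × ℂ => s p.1 p.2.1 p.2.2)
      (Kc a a ×ˢ (Kc a a ×ˢ Kc R R)) :=
    S.san.continuousOn.mono (Set.prod_mono (hsub a ha) (Set.prod_mono (hsub a ha) (hsub R hR)))
  have hu := hK.uniformContinuousOn_of_continuous hc
  rw [Metric.uniformContinuousOn_iff] at hu
  obtain ⟨δ, hδ, hu⟩ := hu ε hε
  have h1 : ∀ᶠ N in atTop, χs N ∈ Rc R R := hχs ((open_Rc R R).mem_nhds hχ₀)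
  have h2 : ∀ᶠ N in atTop, dist (χs N) χ₀ < δ := (Metric.tendsto_nhds.1 hχs) δ hδ
  have hKR : ∀ w ∈ Rc R R, w ∈ Kc R R := by
    intro w hw
    rw [Kc_mem]
    exact ⟨hw.1.le, hw.2.le⟩
  filter_upwards [h1, h2] with N k1 k2 ψ hψ ψ' hψ'
  have k3 := hu (ψ, ψ', χs N) ⟨hψ, hψ', hKR _ k1⟩ (ψ, ψ', χ₀) ⟨hψ, hψ', hKR _ hχ₀⟩ (by
    rw [Prod.dist_eq, Prod.dist_eq]
    simp only [dist_self]
    rw [max_eq_right dist_nonneg, max_eq_right dist_nonneg]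
    exact k2)
  simp only at k3
  rw [dist_eq_norm] at k3
  have k4 := (Complex.abs_re_le_norm (s ψ ψ' (χs N) - s ψ ψ' χ₀)).trans k3.le
  rwa [Complex.sub_re] at k4

theorem kF_le {N : ℕ} {ψ ψ' χ : ℂ} {A δ : ℝ} (h1 : ‖kh N ψ ψ' χ‖ ≤ Real.exp (N * (A - δ)))
    (h2 : ‖kF N ψ ψ' χ - kh N ψ ψ' χ‖ ≤ Real.exp (N * (A - δ))) (h3 : 2 ≤ Real.exp (N * δ)) :
    ‖kF N ψ ψ' χ‖ ≤ Real.exp (N * A) := by
  have h4 : ‖kF N ψ ψ' χ‖ ≤ ‖kF N ψ ψ' χ - kh N ψ ψ' χ‖ + ‖kh N ψ ψ' χ‖ := by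
    have := norm_add_le (kF N ψ ψ' χ - kh N ψ ψ' χ) (kh N ψ ψ' χ)
    rwa [sub_add_cancel] at this
  have h5 : Real.exp (N * A) = Real.exp (N * δ) * Real.exp (N * (A - δ)) := by
    rw [← Real.exp_add]
    congr 1
    ring
  have h6 := Real.exp_pos (N * (A - δ))
  rw [h5]
  nlinarith

theorem gap_of {N : ℕ} {χ : ℂ} (h : 1 / (N : ℝ) ≤ χ.im) : Gap N χ := by
  intro t
  have h1 : (χ - 2 * π * t / N).im = χ.im := by
    have h2 : (2 * π * t / N : ℂ) = ((2 * π * t / N : ℝ) : ℂ) := by push_cast; ring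
    rw [h2, Complex.sub_im, Complex.ofReal_im, sub_zero]
  calc 1 / (N : ℝ) ≤ χ.im := h
    _ ≤ |χ.im| := le_abs_self _
    _ = |(χ - 2 * π * t / N).im| := by rw [h1]
    _ ≤ _ := Complex.abs_im_le_norm _

theorem Rp_diff (N d : ℕ) : Differentiable ℂ (Rp N d) := by
  unfold Rp
  fun_prop

theorem ksx : S_KSX := by
  intro hKB hMW hKR ρ₀ c C s dl S
  obtain ⟨ρ₁, hρ₁, hρ₁₀, hmw⟩ := hMW hKB ρ₀ c C s dl S
  obtain ⟨⟨ρs, hρs, hρs1, HB⟩, -⟩ := hKB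
  have hπ := Real.pi_pos
  have hπ3 := Real.pi_gt_three
  have hc1 : 0 < c1 := c1_pos
  have hbet : 0 < bet := bet_pos
  have hC := S.hC
  have hρ₀ := S.hρ.1
  -- choice of `ρ`
  obtain ⟨ρ, hρ, hρ14, hρρ₁, hρρs, hρρ₀, hρbet, hρC⟩ : ∃ ρ : ℝ, 0 < ρ ∧ ρ ≤ 1 / 4 ∧ 3 * ρ ≤ ρ₁ ∧
      3 * ρ ≤ ρs ∧ 4 * ρ ≤ ρ₀ ∧ 8 * ρ ^ 2 ≤ bet ∧ 30000 * C * ρ ^ 2 ≤ 1 / (256 * π) := by
    have h1 : ∀ᶠ ρ : ℝ in 𝓝[>] 0, ρ ≤ 1 / 4 ∧ 3 * ρ ≤ ρ₁ ∧ 3 * ρ ≤ ρs ∧ 4 * ρ ≤ ρ₀ ∧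
      8 * ρ ^ 2 ≤ bet ∧ 30000 * C * ρ ^ 2 ≤ 1 / (256 * π) := by
      have hcont : ∀ (f : ℝ → ℝ) (b : ℝ), Continuous f → f 0 < b →
          ∀ᶠ ρ : ℝ in 𝓝[>] 0, f ρ ≤ b := by
        intro f b hf hb
        have := (hf.tendsto 0).eventually_le_const hb
        exact nhdsWithin_le_nhds this
      refine (hcont (fun ρ => ρ) _ (by fun_prop) (by norm_num)).and
        ((hcont (fun ρ => 3 * ρ) _ (by fun_prop) (by simpa using hρ₁)).and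
        ((hcont (fun ρ => 3 * ρ) _ (by fun_prop) (by simpa using hρs)).and
        ((hcont (fun ρ => 4 * ρ) _ (by fun_prop) (by simpa using hρ₀)).and
        ((hcont (fun ρ => 8 * ρ ^ 2) _ (by fun_prop) (by simpa using hbet)).and
        (hcont (fun ρ => 30000 * C * ρ ^ 2) _ (by fun_prop) (by simp; positivity))))))
    obtain ⟨ρ, h2, h3⟩ := (h1.and self_mem_nhdsWithin).exists
    exact ⟨ρ, h3, h2⟩
  obtain ⟨u, hu, hκu, hεu, hc1u, h288, h128, h289, h9⟩ := consts hρ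
  obtain ⟨ε, hε_def⟩ : ∃ ε : ℝ, ε = ρ ^ 2 / (1000 * π) := ⟨_, rfl⟩
  have hε : 0 < ε := by rw [hε_def]; positivity
  rw [← hε_def] at hεu
  obtain ⟨κ, hκ_def⟩ : ∃ κ : ℝ, κ = 20 / (128 * π) * ρ ^ 2 := ⟨_, rfl⟩
  rw [← hκ_def] at hκu
  obtain ⟨τε, hτε, hkb⟩ := HB ε hε
  obtain ⟨τ₂, hτ₂, hkr⟩ := hKR (bet / 4) (by positivity)
  obtain ⟨τm, hτm, hτm1, hτm2⟩ : ∃ τm : ℝ, 0 < τm ∧ τm ≤ τε ∧ τm ≤ τ₂ :=
    ⟨min τε τ₂, by positivity, min_le_left _ _, min_le_right _ _⟩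
  obtain ⟨τ, hτ, hτρ, hτ3⟩ : ∃ τ : ℝ, 0 < τ ∧ τ ≤ ρ ∧ 3 * τ ≤ τm := by
    refine ⟨min ρ (τm / 3), by positivity, min_le_left _ _, ?_⟩
    have := min_le_right ρ (τm / 3)
    linarith
  obtain ⟨R, hR, hRρ, hRε, hR1⟩ : ∃ R : ℝ, 0 < R ∧ 50 * R ≤ ρ ∧ R ≤ τε ∧ R ≤ ρ₁ := by
    refine ⟨min (ρ / 50) (min τε ρ₁), by positivity, ?_, ?_, ?_⟩
    · have := min_le_left (ρ / 50) (min τε ρ₁)
      linarith
    · exact (min_le_right _ _).trans (min_le_left _ _)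
    · exact (min_le_right _ _).trans (min_le_right _ _)
  have hρ3 : 3 * ρ ≤ ρ₀ := by linarith
  have hRρ₀ : R ≤ ρ₀ := by linarith
  have hsub : Rc (3 * ρ) (3 * τ) ⊆ Rc ρ₀ ρ₀ := mem_small hρ3 (by linarith)
  have hsubR : Rc R R ⊆ Rc ρ₀ ρ₀ := mem_small hRρ₀ hRρ₀
  have hsub1 : Rc (3 * ρ) (3 * τ) ⊆ Rc ρ₁ ρ₁ := mem_small hρρ₁ (by linarith)
  have hsubR1 : Rc R R ⊆ Rc ρ₁ ρ₁ := mem_small hR1 hR1
  have hsubK : Rc (3 * ρ) (3 * τ) ⊆ Kc (3 * ρ) (3 * ρ) := by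
    intro w hw
    rw [Kc_mem]
    exact ⟨hw.1.le, hw.2.le.trans (by linarith)⟩
  have hlow := s_low S hρ hτρ hρ3 hR hRρ hρC
  have hinv := inv_ev
  have hκρ : 8 * κ ≤ bet := by
    have : 20 / (128 * π) ≤ 1 := by
      rw [div_le_one (by positivity)]
      linarith
    have h1 : κ ≤ ρ ^ 2 := by
      rw [hκ_def]
      calc 20 / (128 * π) * ρ ^ 2 ≤ 1 * ρ ^ 2 := by gcongr
        _ = ρ ^ 2 := one_mul _
    linarith
  -- a weaker lower bound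
  have hlow' : ∀ ψ ∈ Rc (3 * ρ) (3 * τ), ∀ ψ' ∈ Rc (3 * ρ) (3 * τ), ∀ χ ∈ Rc R R,
      7 / 4 * bet ≤ (s ψ ψ' χ).re := by
    intro ψ hψ ψ' hψ' χ hχ
    have h1 := hlow ψ hψ ψ' hψ' χ hχ
    have h2 := re2 ψ hψ
    have h3 := re2 ψ' hψ'
    have h4 : ψ.re ^ 2 / (4 * π) ≤ 9 * ρ ^ 2 / (4 * π) := by gcongr
    have h5 : ψ'.re ^ 2 / (4 * π) ≤ 9 * ρ ^ 2 / (4 * π) := by gcongr
    linarith
  refine ⟨ρ, τ, κ, c, C, R, by rw [hκu]; positivity, hρ3, hR, hRρ₀, fun χ hχ => ⟨?_, ?_⟩, ?_⟩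
  · refine
      { hρ := ⟨hρ, hρ14⟩
        hτ := ⟨hτ, hτρ⟩
        hc := S.hc
        hC := S.hC
        san := ?_
        sbd := fun ψ hψ ψ' hψ' => S.sbd ψ (hsub hψ) ψ' (hsub hψ') χ (hsubR hχ)
        sym := fun ψ hψ ψ' hψ' => S.sym ψ (hsub hψ) ψ' (hsub hψ') χ (hsubR hχ)
        ev := fun ψ hψ ψ' hψ' => S.ev ψ (hsub hψ) ψ' (hsub hψ') χ (hsubR hχ)
        conc := fun ψ hψ ψ' hψ' => (S.conc ψ (hsub hψ) ψ' (hsub hψ') χ (hsubR hχ)).1 }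
    have h1 : DifferentiableOn ℂ (fun p : ℂ × ℂ => (p.1, p.2, χ))
        (Rc (3 * ρ) (3 * τ) ×ˢ Rc (3 * ρ) (3 * τ)) := by fun_prop
    exact S.san.comp h1 fun p hp => ⟨hsub hp.1, hsub hp.2, hsubR hχ⟩
  · refine ⟨⟨by rw [hκu]; positivity, by linarith⟩, fun ψ hψ ψ' hψ' => ?_, ?_⟩
    · have := hlow' ψ hψ ψ' hψ' χ hχ
      linarith
    · rw [hκ_def]
      exact s_zero S hρ hρ3 hR hRρ hρC χ hχ
  intro χ₀ hχ₀ hχim χs hχs
  -- the combined bounds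
  have hev : ∀ᶠ N : ℕ in atTop, χs N ∈ Rc R R ∧ ∀ ψ ψ' : ℂ, |ψ.re| ≤ π → |ψ.im| ≤ τm →
      |ψ'.re| ≤ π → |ψ'.im| ≤ τm →
      ‖kh N ψ ψ' (χs N)‖ ≤ Real.exp (N * (2 * bet - c1 * min |ψ.re| ρs ^ 2 -
        c1 * min |ψ'.re| ρs ^ 2 + ε)) ∧
      ‖kF N ψ ψ' (χs N) - kh N ψ ψ' (χs N)‖ ≤ Real.exp (N * (5 / 4 * bet)) := by
    have h1 : ∀ᶠ N in atTop, χs N ∈ Rc R R := hχs ((open_Rc R R).mem_nhds hχ₀)
    have h2 : ∀ᶠ N in atTop, χ₀.im / 2 < (χs N).im := by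
      have h3 : Tendsto (fun N => (χs N).im) atTop (𝓝 χ₀.im) :=
        (Complex.continuous_im.tendsto χ₀).comp hχs
      exact h3.eventually_const_lt (by linarith)
    filter_upwards [h1, h2, hkb, hkr, hinv (χ₀.im / 2) (by positivity)] with N k1 k2 k3 k4 k5
    refine ⟨k1, fun ψ ψ' a1 a2 a3 a4 => ⟨?_, ?_⟩⟩
    · have b1 : |(χs N).re| ≤ π := by
        have := k1.1
        linarith
      have b2 : |(χs N).im| ≤ τε := k1.2.le.trans hRε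
      refine (k3 ψ ψ' (χs N) a1 (a2.trans hτm1) a3 (a4.trans hτm1) b1 b2).trans ?_
      refine Real.exp_le_exp.2 (mul_le_mul_of_nonneg_left ?_ (Nat.cast_nonneg N))
      have : 0 ≤ c1 * min |(χs N).re| ρs ^ 2 := by positivity
      linarith
    · have b1 : |(χs N).re| ≤ π := by
        have := k1.1
        linarith
      have b2 : |(χs N).im| ≤ 9 / 5 := by
        have := k1.2
        linarith
      refine (k4 ψ ψ' (χs N) a1 (a2.trans hτm2) a3 (a4.trans hτm2) b1 b2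
        (gap_of (k5.trans k2.le))).trans ?_
      refine Real.exp_le_exp.2 (mul_le_mul_of_nonneg_left ?_ (Nat.cast_nonneg N))
      linarith
  have hmin : ∀ x : ℝ, ρ ≤ |x| → c1 * ρ ^ 2 ≤ c1 * min |x| ρs ^ 2 := by
    intro x hx
    have h1 : ρ ≤ min |x| ρs := le_min hx (by linarith)
    gcongr
  have hmin0 : ∀ x : ℝ, 0 ≤ c1 * min |x| ρs ^ 2 := fun x => by positivity
  have h0mem : (0 : ℂ) ∈ Rc (3 * ρ) (3 * τ) := by
    refine ⟨?_, ?_⟩ <;> simp <;> positivity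
  refine
    { sep := ?_
      mw := ?_
      far := ?_
      farg := ?_
      farb := ?_ }
  · intro N
    refine ⟨N, fun d ψ => Rp N d ψ,
      fun d ψ' => Rp N d ψ' * (Tg N 0 (χs N) / ∏ t ∈ Ioc 0 d, Ph N (χs N) t),
      fun d => ⟨Rp_diff N d, (Rp_diff N d).mul_const _⟩, fun ψ ψ' => ?_⟩
    unfold kF
    exact Finset.sum_congr rfl fun d _ => by ring
  · intro e he
    obtain ⟨e', he', he1, he2⟩ : ∃ e' : ℝ, 0 < e' ∧ 3 * e' ≤ e ∧ 8 * e' ≤ bet := by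
      refine ⟨min (e / 3) (bet / 8), by positivity, ?_, ?_⟩
      · have := min_le_left (e / 3) (bet / 8)
        linarith
      · have := min_le_right (e / 3) (bet / 8)
        linarith
    have hu1 := s_unif S (a := 3 * ρ) (R := R) (by linarith) (by linarith) hχ₀ hχs he'
    filter_upwards [hev, hmw e' he', hu1, two_ev (show 0 < bet / 4 by positivity),
      two_ev he', eventually_ge_atTop 1] with N k1 k2 k3 k4 k5 k6 ψ hψ ψ' hψ'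
    obtain ⟨m1, k1⟩ := k1
    have hN0 : (0 : ℝ) < N := by exact_mod_cast k6
    obtain ⟨a1, a2⟩ := k2 ψ (hsub1 hψ) ψ' (hsub1 hψ') (χs N) (hsubR1 m1)
    have a3 := k3 ψ (hsubK hψ) ψ' (hsubK hψ')
    have im1 : |ψ.im| ≤ τm := by
      have := hψ.2
      linarith
    have im2 : |ψ'.im| ≤ τm := by
      have := hψ'.2
      linarith
    have re1 : |ψ.re| ≤ π := by
      have := hψ.1
      linarith
    have re2 : |ψ'.re| ≤ π := by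
      have := hψ'.1
      linarith
    obtain ⟨-, a4⟩ := k1 ψ ψ' re1 im1 re2 im2
    have a5 := hlow' ψ hψ ψ' hψ' (χs N) m1
    have p1 : 0 < ‖kh N ψ ψ' (χs N)‖ := norm_pos_iff.2 a1
    -- the rest is small
    have a6 : 2 * ‖kF N ψ ψ' (χs N) - kh N ψ ψ' (χs N)‖ ≤ ‖kh N ψ ψ' (χs N)‖ := by
      have b1 : Real.exp (N * (3 / 2 * bet)) ≤ ‖kh N ψ ψ' (χs N)‖ := by
        rw [← Real.le_log_iff_exp_le p1]
        have b2 := (abs_le.1 a2).1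
        have b3 : N * (7 / 4 * bet) ≤ N * (s ψ ψ' (χs N)).re := mul_le_mul_of_nonneg_left a5 hN0.le
        have b4 : N * (8 * e') ≤ N * bet := mul_le_mul_of_nonneg_left he2 hN0.le
        have b5 : (0 : ℝ) < N * bet := by positivity
        linarith
      have b6 : Real.exp (N * (3 / 2 * bet)) =
          Real.exp (N * (bet / 4)) * Real.exp (N * (5 / 4 * bet)) := by
        rw [← Real.exp_add]
        congr 1
        ring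
      have b7 : 2 * Real.exp (N * (5 / 4 * bet)) ≤ Real.exp (N * (3 / 2 * bet)) := by
        rw [b6]
        exact mul_le_mul_of_nonneg_right k4 (Real.exp_pos _).le
      linarith
    have a7 : ‖kh N ψ ψ' (χs N)‖ ≤ 2 * ‖kF N ψ ψ' (χs N)‖ := by
      have b1 : ‖kh N ψ ψ' (χs N)‖ ≤ ‖kF N ψ ψ' (χs N) - kh N ψ ψ' (χs N)‖ +
          ‖kF N ψ ψ' (χs N)‖ := by
        have := norm_sub_le (kF N ψ ψ' (χs N)) (kF N ψ ψ' (χs N) - kh N ψ ψ' (χs N))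
        rw [sub_sub_cancel] at this
        linarith
      linarith
    have a8 : ‖kF N ψ ψ' (χs N)‖ ≤ 2 * ‖kh N ψ ψ' (χs N)‖ := by
      have b1 : ‖kF N ψ ψ' (χs N)‖ ≤ ‖kF N ψ ψ' (χs N) - kh N ψ ψ' (χs N)‖ +
          ‖kh N ψ ψ' (χs N)‖ := by
        have := norm_add_le (kF N ψ ψ' (χs N) - kh N ψ ψ' (χs N)) (kh N ψ ψ' (χs N))
        rwa [sub_add_cancel] at this
      linarith
    have p2 : 0 < ‖kF N ψ ψ' (χs N)‖ := by linarith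
    refine ⟨norm_pos_iff.1 p2, ?_⟩
    have l2 : Real.log 2 ≤ N * e' := by
      rw [← Real.log_exp (N * e')]
      exact Real.log_le_log two_pos k5
    have l3 : Real.log ‖kh N ψ ψ' (χs N)‖ ≤ Real.log 2 + Real.log ‖kF N ψ ψ' (χs N)‖ := by
      rw [← Real.log_mul two_ne_zero p2.ne']
      exact Real.log_le_log p1 a7
    have l4 : Real.log ‖kF N ψ ψ' (χs N)‖ ≤ Real.log 2 + Real.log ‖kh N ψ ψ' (χs N)‖ := by
      rw [← Real.log_mul two_ne_zero p1.ne']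
      exact Real.log_le_log p2 a8
    obtain ⟨c1', c2'⟩ := abs_le.1 a2
    obtain ⟨c3, c4⟩ := abs_le.1 a3
    have c5 : N * (s ψ ψ' (χs N)).re ≤ N * (s ψ ψ' χ₀).re + N * e' := by
      rw [← mul_add]
      exact mul_le_mul_of_nonneg_left (by linarith) hN0.le
    have c6 : N * (s ψ ψ' χ₀).re ≤ N * (s ψ ψ' (χs N)).re + N * e' := by
      rw [← mul_add]
      exact mul_le_mul_of_nonneg_left (by linarith) hN0.le
    have c7 : (N : ℝ) * (3 * e') ≤ N * e := mul_le_mul_of_nonneg_left he1 hN0.le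
    rw [abs_le]
    constructor <;> linarith
  · filter_upwards [hev, hinv τm hτm, two_ev (show 0 < u / 2 by positivity)] with
      N k1 hN1 k3 ψ hx hxπ hy ψ' hψ'
    obtain ⟨m1, k1⟩ := k1
    have hre : |ψ'.re| ≤ π := by
      have := hψ'.1
      linarith
    have him : |ψ'.im| ≤ τm := by
      have := hψ'.2
      linarith
    have h2 := hmin ψ.re hx
    have h3 : min |ψ'.re| ρs = |ψ'.re| := min_eq_left (by
      have := hψ'.1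
      linarith)
    have h4 := hlow 0 h0mem ψ' hψ' χ₀ hχ₀
    have h4' := hlow' 0 h0mem ψ' hψ' χ₀ hχ₀
    have h5 := h9 _ (re2 ψ' hψ')
    have z1 : (0 : ℂ).re ^ 2 / (4 * π) = 0 := by simp
    rw [z1] at h4
    have hb : Real.exp (N * (5 / 4 * bet)) ≤ Real.exp (N * ((s 0 ψ' χ₀).re - κ - u / 2)) := by
      refine Real.exp_le_exp.2 (mul_le_mul_of_nonneg_left ?_ (Nat.cast_nonneg N))
      linarith
    constructor
    · obtain ⟨g1, g2⟩ := k1 ψ ψ' hxπ (hy.trans hN1) hre him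
      refine kF_le (δ := u / 2) (g1.trans (Real.exp_le_exp.2 ?_)) (g2.trans hb) k3
      refine mul_le_mul_of_nonneg_left ?_ (Nat.cast_nonneg N)
      rw [h3, sq_abs]
      linarith
    · obtain ⟨g1, g2⟩ := k1 ψ' ψ hre him hxπ (hy.trans hN1)
      refine kF_le (δ := u / 2) (g1.trans (Real.exp_le_exp.2 ?_)) (g2.trans hb) k3
      refine mul_le_mul_of_nonneg_left ?_ (Nat.cast_nonneg N)
      rw [h3, sq_abs]
      linarith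
  · filter_upwards [hev, hinv τm hτm, two_ev (show 0 < u / 2 by positivity)] with
      N k1 hN1 k3 ψ ψ' hx hρx' hx' hy hy'
    obtain ⟨m1, k1⟩ := k1
    have h1 := hmin0 ψ.re
    have h2 := hmin ψ'.re hρx'
    have hb : Real.exp (N * (5 / 4 * bet)) ≤ Real.exp (N * (2 * bet - 5 / 4 * κ - u / 2)) := by
      refine Real.exp_le_exp.2 (mul_le_mul_of_nonneg_left ?_ (Nat.cast_nonneg N))
      linarith
    constructor
    · obtain ⟨g1, g2⟩ := k1 ψ ψ' hx (hy.trans hN1) hx' (hy'.trans hN1)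
      refine kF_le (δ := u / 2) (g1.trans (Real.exp_le_exp.2 ?_)) (g2.trans hb) k3
      refine mul_le_mul_of_nonneg_left ?_ (Nat.cast_nonneg N)
      linarith
    · obtain ⟨g1, g2⟩ := k1 ψ' ψ hx' (hy'.trans hN1) hx (hy.trans hN1)
      refine kF_le (δ := u / 2) (g1.trans (Real.exp_le_exp.2 ?_)) (g2.trans hb) k3
      refine mul_le_mul_of_nonneg_left ?_ (Nat.cast_nonneg N)
      linarith
  · filter_upwards [hev, hinv τm hτm, two_ev (show 0 < u / 2 by positivity)] with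
      N k1 hN1 k3 ψ ψ' hρx hx hρx' hx' hy hy'
    obtain ⟨m1, k1⟩ := k1
    have h1 := hmin ψ.re hρx
    have h2 := hmin ψ'.re hρx'
    have hb : Real.exp (N * (5 / 4 * bet)) ≤ Real.exp (N * (2 * bet - 2 * κ - u / 2)) := by
      refine Real.exp_le_exp.2 (mul_le_mul_of_nonneg_left ?_ (Nat.cast_nonneg N))
      linarith
    obtain ⟨g1, g2⟩ := k1 ψ ψ' hx (hy.trans hN1) hx' (hy'.trans hN1)
    refine kF_le (δ := u / 2) (g1.trans (Real.exp_le_exp.2 ?_)) (g2.trans hb) k3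
    refine mul_le_mul_of_nonneg_left ?_ (Nat.cast_nonneg N)
    linarith

end Pool.Agent.Y497.X
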